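import Pool.Agent.Helper98.EX.Stmts2

/-!
# STREAM: the streaming lemma with numbers
-/

namespace Pool.Agent.Helper98.EX

open Finset

/-- powers of the logarithm are negligible -/
theorem stream_log (k : ℕ) (ε C : ℝ) (hε : 0 < ε) :
    ∃ N0 : ℕ, ∀ N : ℕ, N0 ≤ N → C * Real.log N ^ k ≤ (N : ℝ) ^ ε := by
  have h := (isLittleO_log_rpow_rpow_atTop (k : ℝ) hε)
  have h2 := h.comp_tendsto tendsto_natCast_atTop_atTop
  have h3 := h2.bound (c := 1 / (|C| + 1)) (by positivity)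
  obtain ⟨N0, hN0⟩ := Filter.eventually_atTop.mp h3
  refine ⟨max N0 1, fun N hN => ?_⟩
  have h4 := hN0 N (le_trans (le_max_left _ _) hN)
  have hN1 : (1 : ℝ) ≤ N := by exact_mod_cast le_trans (le_max_right _ _) hN
  simp only [Function.comp_apply, Real.rpow_natCast, Real.norm_eq_abs] at h4
  have hlog : 0 ≤ Real.log N := Real.log_nonneg hN1
  rw [abs_of_nonneg (pow_nonneg hlog k), abs_of_nonneg (Real.rpow_nonneg (by linarith) ε)] at h4
  have hp : 0 ≤ Real.log N ^ k := pow_nonneg hlog k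
  have hq : 0 < |C| + 1 := by positivity
  have h5 : (|C| + 1) * Real.log N ^ k ≤ (N : ℝ) ^ ε := by
    have := mul_le_mul_of_nonneg_left h4 hq.le
    rwa [← mul_assoc, mul_one_div_cancel hq.ne', one_mul] at this
  refine le_trans (mul_le_mul_of_nonneg_right ?_ hp) h5
  linarith [le_abs_self C]

theorem stream_RR_nonneg {N : ℕ} {r l : ℕ → ℝ} (h : Adm N r l) {z x : ℕ} (hx : x < N) :
    0 ≤ RR r l z x := by
  unfold RR
  refine Finset.prod_nonneg fun b hb => ?_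
  rw [Finset.mem_Ioc] at hb
  have := h b (by omega) (by omega)
  exact div_nonneg this.2.2.1 this.1.le

theorem stream_RR_mirr {N : ℕ} {r l : ℕ → ℝ} {z x : ℕ} (hx : x < N) :
    RR (mirr N r) (mirr N l) z x = RR r l (N - 1 - x) (N - 1 - z) := by
  unfold RR mirr
  refine Finset.prod_nbij' (fun b => N - b) (fun b => N - b) ?_ ?_ ?_ ?_ ?_
  · intro b hb; rw [Finset.mem_Ioc] at *; omega
  · intro b hb; rw [Finset.mem_Ioc] at *; omega
  · intro b hb; rw [Finset.mem_Ioc] at *; omega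
  · intro b hb; rw [Finset.mem_Ioc] at *; omega
  · intro b hb; rfl

theorem stream_adm_mirr {N : ℕ} {r l : ℕ → ℝ} (h : Adm N r l) : Adm N (mirr N r) (mirr N l) := by
  intro x h1 h2
  exact h (N - x) (by omega) (by omega)

theorem stream_pos_mirr {N : ℕ} {l : ℕ → ℝ} (h : Pos N l) : Pos N (mirr N l) := by
  intro x h1 h2
  exact h (N - x) (by omega) (by omega)

theorem stream_atl_nonneg {N : ℕ} {r l : ℕ → ℝ} (h : Adm N r l) {η0 : ℝ} (h0 : 0 ≤ η0) {w y : ℕ}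
    (hy : y + 1 < N) : 0 ≤ atl r l η0 w y := by
  unfold atl
  refine Finset.sum_nonneg fun d _ => ?_
  have hr := (h (y + 1) (by omega) hy).1
  exact div_nonneg (mul_nonneg (pow_nonneg (by linarith) _) (stream_RR_nonneg h (by omega))) hr.le

theorem stream_mono {L : LD} (hv : L.Valid) : ∀ c d, c ≤ d → d ≤ L.M → L.u c ≤ L.u d := by
  intro c d hcd
  induction d, hcd using Nat.le_induction with
  | base => intro _; exact le_rfl
  | succ d hd ih =>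
    intro hM
    have h1 := ih (by omega)
    rcases Nat.eq_zero_or_pos d with h0 | h0
    · subst h0
      have := hv.first (by omega)
      have hc : c = 0 := by omega
      subst hc
      exact this.le
    · have := hv.step d (by omega) (by omega)
      omega

/-- the single particle moves of the streaming lemma -/
theorem stream_mv (hMOVE : ST_MOVE) (N : ℕ) (r l : ℕ → ℝ) (η0 as ell δ1 eps e1 : ℝ) (w τ : ℕ)
    (L : LD) (hadm : Adm N r l) (hpos : Pos N l) (h0 : 0 < η0) (h1 : η0 ≤ 1) (hw1 : 1 ≤ w)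
    (has : 0 < as) (heps : 0 ≤ eps)
    (hv : L.Valid) (hLw : L.w = w) (hx0 : L.x0 ≤ N)
    (hat : ∀ y, L.A ≤ y → y < L.x0 → atl r l η0 w y ≤ as)
    (hfar : ∀ z x, z + w ≤ x → x < N → RR r l z x ≤ eps)
    (htiny : (1 + η0) ^ (w + 1) ≤ N) (hN : (N : ℝ) * eps ≤ η0 / 4)
    (hcell : ∀ c, 1 ≤ c → c ≤ L.M → ∑ y ∈ Finset.Ico (L.u (c - 1)) (L.u c), atl r l η0 w y ≤ ell)
    (hτ : (1 + δ1) * ell ≤ τ / (2 * N)) (hw : w * as ≤ δ1 / 2 * ell)
    (he : Real.exp (-(η0 * δ1 / 8 * (ell / as))) + N * eps ≤ e1) :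
    ∀ (c a : ℕ) (S : Finset ℕ) (η : Cfg N), 1 ≤ c → c ≤ L.M → L.e (c - 1) ≤ a → a < L.e c →
    a ∉ S → L.e (c + 1) ∉ S → (∀ x, a < x → x < L.e (c + 1) → x ∈ S) →
    cnt η a (L.e (c + 1)) = 1 → (∃ x, a ≤ x ∧ x < L.e c ∧ occ η x = true) →
    pr r l (fun _ => S) τ {ξ | ∃ i, a ≤ i ∧ i < L.e c ∧ occ ξ i = true} η ≤ e1 := by
  intro c a S η hc1 hcM ha1 ha2 haS hES hS hcnt hocc
  have hec : L.e c = L.u c := by unfold LD.e; rw [if_pos hcM]
  have hec1 : L.e (c - 1) = L.u (c - 1) := by unfold LD.e; rw [if_pos (by omega)]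
  have huM := hv.uM
  rw [hLw] at huM
  have hmono := stream_mono hv
  have hE1 : L.e c + w < L.e (c + 1) := by
    rw [hec]
    unfold LD.e
    split_ifs with h
    · have := hv.step c hc1 (by omega)
      omega
    · have hcM' : c = L.M := by omega
      rw [hcM', hLw]; omega
  have hE2 : L.e (c + 1) + w ≤ L.x0 := by
    unfold LD.e
    split_ifs with h
    · have := hmono (c + 1) L.M h le_rfl
      omega
    · rw [hLw]; omega
  have hA : L.A ≤ L.e (c - 1) := by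
    rw [hec1, ← hv.u0]
    exact hmono 0 (c - 1) (by omega) (by omega)
  have hkey := hMOVE N r l η0 as eps w S (L.e (c - 1)) a (L.e c) (L.e (c + 1)) τ η hadm hpos h0 h1
    hw1 has heps ha1 ha2 hE1 (by omega) haS hES hS hcnt hocc
    (fun y hy1 hy2 => hat y (by omega) (by omega))
    (fun y hy1 hy2 => by
      have h2 := hfar (y - w) y (by omega) (by omega)
      have h3 : 0 ≤ RR r l (y - w) y := stream_RR_nonneg hadm (by omega)
      calc (1 + η0) ^ (w + 1) * RR r l (y - w) y ≤ N * RR r l (y - w) y :=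
            mul_le_mul_of_nonneg_right htiny h3
        _ ≤ N * eps := mul_le_mul_of_nonneg_left h2 (Nat.cast_nonneg _)
        _ ≤ η0 / 4 := hN)
    hfar
  refine le_trans hkey (le_trans (add_le_add (Real.exp_le_exp.mpr ?_) le_rfl) he)
  have hsum : ∑ y ∈ Finset.Ico (L.e (c - 1)) (L.e c + w), atl r l η0 w y ≤ ell + w * as := by
    rw [← Finset.sum_Ico_consecutive _ (show L.e (c - 1) ≤ L.e c by omega)
      (show L.e c ≤ L.e c + w by omega)]
    refine add_le_add ?_ ?_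
    · rw [hec1, hec]; exact hcell c hc1 hcM
    · have : ∑ y ∈ Finset.Ico (L.e c) (L.e c + w), atl r l η0 w y ≤
          ∑ y ∈ Finset.Ico (L.e c) (L.e c + w), as := by
        refine Finset.sum_le_sum fun y hy => ?_
        rw [Finset.mem_Ico] at hy
        exact hat y (by omega) (by omega)
      rw [Finset.sum_const, Nat.card_Ico, nsmul_eq_mul] at this
      simpa using this
  have h4 : 0 < η0 / (4 * as) := by positivity
  calc η0 / (4 * as) * (∑ y ∈ Finset.Ico (L.e (c - 1)) (L.e c + w), atl r l η0 w y - τ / (2 * N))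
      ≤ η0 / (4 * as) * (-(δ1 / 2 * ell)) := by
        refine mul_le_mul_of_nonneg_left ?_ h4.le
        linarith
    _ = -(η0 * δ1 / 8 * (ell / as)) := by
        field_simp
        ring

/-- the absorption steps -/
theorem stream_ab (hQ : ST_Q) (N : ℕ) (r l : ℕ → ℝ) (x0 w τ A B : ℕ) (D rmin lmin Zs eps e2 Lg : ℝ)
    (hadm : Adm N r l) (hpos : Pos N l) (hBN : B ≤ N)
    (hr0 : 0 < rmin) (hl0 : 0 < lmin) (hl1 : lmin ≤ 1) (hD : 1 ≤ D)
    (hr : ∀ b, x0 < b + 3 * w → b < x0 + 3 * w → rmin ≤ r b)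
    (hl : ∀ x, 1 ≤ x → x < N → lmin ≤ l x)
    (hnear : ∀ z x, x0 ≤ z + 3 * w → z ≤ x → x < x0 + 3 * w → RR r l z x ≤ D)
    (hA : A + 3 * w ≤ x0) (hB : x0 + 3 * w ≤ B)
    (hzs : ∑ z ∈ Finset.Ico (x0 - 3 * w) x0, RR r l z x0 +
      ∑ x ∈ Finset.Ico x0 (x0 + 3 * w), RR r l x0 x ≤ Zs)
    (hfar : ∀ z x, z + w ≤ x → x < N → RR r l z x ≤ eps) (heps : 0 ≤ eps)
    (hLg : Real.log (1 / lmin) ≤ Lg)
    (he : Real.exp (Zs + (6 * (w : ℝ)) ^ 2 * Lg -
      τ * rmin / (2 * N * (16 * (6 * (w : ℝ)) ^ 4 * D ^ 2 * Real.exp Zs))) +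
      18 * (w : ℝ) ^ 2 * eps ≤ e2) :
    ∀ (l0 r0 : ℕ) (S : Finset ℕ) (η : Cfg N), x0 - 3 * w ≤ l0 → l0 < x0 → x0 < r0 →
    r0 ≤ x0 + 3 * w → A ≤ l0 → r0 ≤ B →
    l0 ∉ S → r0 ∉ S → (∀ x, l0 < x → x < r0 → x ∈ S) → cnt η l0 r0 = r0 - x0 →
    pr r l (fun _ => S) τ (sorted l0 (x0 - w) (x0 + w) r0)ᶜ η ≤ e2 := by
  intro l0 r0 S η h1 h2 h3 h4 h5 h6 h7 h8 h9 h10
  have hset : (sorted l0 (x0 - w) (x0 + w) r0 : Set (Cfg N)) =
      sorted l0 (max l0 (x0 - w)) (min r0 (x0 + w)) r0 := by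
    unfold sorted
    ext ξ
    simp only [Set.mem_ofPred_eq]
    constructor
    · rintro ⟨ha, hb⟩
      refine ⟨fun i hi1 hi2 => ha i hi1 (by omega), fun i hi1 hi2 => hb i (by omega) hi2⟩
    · rintro ⟨ha, hb⟩
      refine ⟨fun i hi1 hi2 => ha i hi1 (by omega), fun i hi1 hi2 => hb i (by omega) hi2⟩
  have hRn : ∀ z x, x < N → 0 ≤ RR r l z x := fun z x hx => stream_RR_nonneg hadm hx
  have hkey := hQ N r l S l0 (max l0 (x0 - w)) x0 (min r0 (x0 + w)) r0 τ D rmin lmin Zs η hadm hpos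
    (by omega) (by omega) (by omega) (by omega) (by omega) (by omega) h7 h8 h9 hr0 hl0 hl1
    (fun b hb1 hb2 => ⟨hr b (by omega) (by omega), hl b (by omega) (by omega)⟩) hD
    (fun z x hz1 hz2 hz3 => hnear z x (by omega) hz2 (by omega))
    (by
      refine le_trans (add_le_add ?_ ?_) hzs
      · refine Finset.sum_le_sum_of_subset_of_nonneg ?_ ?_
        · intro z hz; rw [Finset.mem_Ico] at *; omega
        · intro z hz _; rw [Finset.mem_Ico] at hz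
          exact hRn z x0 (by omega)
      · refine Finset.sum_le_sum_of_subset_of_nonneg ?_ ?_
        · intro z hz; rw [Finset.mem_Ico] at *; omega
        · intro z hz _; rw [Finset.mem_Ico] at hz
          exact hRn x0 z (by omega))
    h10
  rw [hset]
  refine le_trans hkey (le_trans (add_le_add (Real.exp_le_exp.mpr ?_) ?_) he)
  · have hlr : ((r0 : ℝ) - l0) ≤ 6 * w := by
      have : (r0 : ℝ) ≤ l0 + 6 * w := by exact_mod_cast (by omega : r0 ≤ l0 + 6 * w)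
      linarith
    have hlr0 : 0 < ((r0 : ℝ) - l0) := by
      have : (l0 : ℝ) < r0 := by exact_mod_cast (by omega : l0 < r0)
      linarith
    have hN0 : (0 : ℝ) < N := by exact_mod_cast (by omega : 0 < N)
    have hLg0 : 0 ≤ Real.log (1 / lmin) := by
      apply Real.log_nonneg
      rw [le_div_iff₀ hl0]; linarith
    have e1 : ((r0 : ℝ) - l0) ^ 2 * Real.log (1 / lmin) ≤ (6 * (w : ℝ)) ^ 2 * Lg := by
      refine mul_le_mul ?_ hLg hLg0 (by positivity)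
      exact pow_le_pow_left₀ hlr0.le hlr 2
    have e3 : τ * rmin / (2 * N * (16 * (6 * (w : ℝ)) ^ 4 * D ^ 2 * Real.exp Zs)) ≤
        τ * rmin / (2 * N * (16 * ((r0 : ℝ) - l0) ^ 4 * D ^ 2 * Real.exp Zs)) := by
      have hD2 : 0 < D ^ 2 := by positivity
      have hex : 0 < Real.exp Zs := Real.exp_pos _
      refine div_le_div_of_nonneg_left (by positivity) (by positivity) ?_
      have : ((r0 : ℝ) - l0) ^ 4 ≤ (6 * (w : ℝ)) ^ 4 := pow_le_pow_left₀ hlr0.le hlr 4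
      have h2N : (0 : ℝ) ≤ 2 * N := by positivity
      refine mul_le_mul_of_nonneg_left ?_ h2N
      refine mul_le_mul_of_nonneg_right ?_ hex.le
      refine mul_le_mul_of_nonneg_right ?_ hD2.le
      linarith
    linarith
  · have c1 : ∑ z ∈ Finset.Ico l0 (max l0 (x0 - w)), ∑ x ∈ Finset.Ico x0 r0, RR r l z x ≤
        9 * (w : ℝ) ^ 2 * eps := by
      have : ∑ z ∈ Finset.Ico l0 (max l0 (x0 - w)), ∑ x ∈ Finset.Ico x0 r0, RR r l z x ≤
          ∑ z ∈ Finset.Ico l0 (max l0 (x0 - w)), ∑ x ∈ Finset.Ico x0 r0, eps := by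
        refine Finset.sum_le_sum fun z hz => Finset.sum_le_sum fun x hx => ?_
        rw [Finset.mem_Ico] at hz hx
        exact hfar z x (by omega) (by omega)
      refine le_trans this ?_
      simp only [Finset.sum_const, Nat.card_Ico, nsmul_eq_mul]
      have a1 : ((max l0 (x0 - w) - l0 : ℕ) : ℝ) ≤ 3 * w := by
        exact_mod_cast (by omega : max l0 (x0 - w) - l0 ≤ 3 * w)
      have a2 : ((r0 - x0 : ℕ) : ℝ) ≤ 3 * w := by
        exact_mod_cast (by omega : r0 - x0 ≤ 3 * w)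
      calc ((max l0 (x0 - w) - l0 : ℕ) : ℝ) * (((r0 - x0 : ℕ) : ℝ) * eps) ≤
          (3 * w) * ((3 * w) * eps) := by
            refine mul_le_mul a1 (mul_le_mul_of_nonneg_right a2 heps) (by positivity)
              (by positivity)
        _ = 9 * (w : ℝ) ^ 2 * eps := by ring
    have c2 : ∑ z ∈ Finset.Ico l0 x0, ∑ x ∈ Finset.Ico (min r0 (x0 + w)) r0, RR r l z x ≤
        9 * (w : ℝ) ^ 2 * eps := by
      have : ∑ z ∈ Finset.Ico l0 x0, ∑ x ∈ Finset.Ico (min r0 (x0 + w)) r0, RR r l z x ≤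
          ∑ z ∈ Finset.Ico l0 x0, ∑ x ∈ Finset.Ico (min r0 (x0 + w)) r0, eps := by
        refine Finset.sum_le_sum fun z hz => Finset.sum_le_sum fun x hx => ?_
        rw [Finset.mem_Ico] at hz hx
        exact hfar z x (by omega) (by omega)
      refine le_trans this ?_
      simp only [Finset.sum_const, Nat.card_Ico, nsmul_eq_mul]
      have a1 : ((x0 - l0 : ℕ) : ℝ) ≤ 3 * w := by
        exact_mod_cast (by omega : x0 - l0 ≤ 3 * w)
      have a2 : ((r0 - min r0 (x0 + w) : ℕ) : ℝ) ≤ 3 * w := by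
        exact_mod_cast (by omega : r0 - min r0 (x0 + w) ≤ 3 * w)
      calc ((x0 - l0 : ℕ) : ℝ) * (((r0 - min r0 (x0 + w) : ℕ) : ℝ) * eps) ≤
          (3 * w) * ((3 * w) * eps) := by
            refine mul_le_mul a1 (mul_le_mul_of_nonneg_right a2 heps) (by positivity)
              (by positivity)
        _ = 9 * (w : ℝ) ^ 2 * eps := by ring
    linarith

/-- the numerical facts -/
theorem stream_num (γ δ1 η0 Cs : ℝ) (hγ : 0 < γ) (hδ : 0 < δ1) (hη : 0 < η0) (hC : 0 ≤ Cs) :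
    ∃ N0 : ℕ, ∀ N : ℕ, N0 ≤ N → 7 ≤ N ∧
      Real.log N ^ 2 ≤ δ1 / 2 * (N : ℝ) ^ γ ∧ Real.log N ^ 2 + 3 ≤ (N : ℝ) ^ γ ∧
      (N : ℝ) * ((N : ℝ) ^ (-11 : ℝ)) ≤ η0 / 4 ∧ 1 ≤ 2 * N * δ1 ∧ 1 + δ1 ≤ δ1 * (N : ℝ) ^ γ ∧
      Real.exp (-(η0 * δ1 / 8 * (N : ℝ) ^ γ)) ≤ (N : ℝ) ^ (-10 : ℝ) ∧
      ∀ (w : ℕ) (t : ℝ), 1 ≤ w → (w : ℝ) ≤ Real.log N ^ 2 → (N : ℝ) ^ γ ≤ t →
        Real.exp (Cs + (6 * (w : ℝ)) ^ 2 * (100 * Real.log N) -
          t * (N : ℝ) ^ (-(γ / 10)) /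
            (16 * (6 * (w : ℝ)) ^ 4 * ((N : ℝ) ^ (γ / 10)) ^ 2 * Real.exp Cs)) ≤
          (N : ℝ) ^ (-8 : ℝ) ∧
        18 * (w : ℝ) ^ 2 * (N : ℝ) ^ (-11 : ℝ) ≤ (N : ℝ) ^ (-8 : ℝ) := by
  obtain ⟨N1, h1⟩ := stream_log 2 γ (2 / δ1) hγ
  obtain ⟨N2, h2⟩ := stream_log 2 γ 4 hγ
  obtain ⟨N3, h3⟩ := stream_log 0 1 (4 / η0) one_pos
  obtain ⟨N4, h4⟩ := stream_log 0 1 (1 / (2 * δ1)) one_pos
  obtain ⟨N5, h5⟩ := stream_log 0 γ ((1 + δ1) / δ1) hγ
  obtain ⟨N6, h6⟩ := stream_log 1 γ (80 / (η0 * δ1)) hγ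
  obtain ⟨N7, h7⟩ := stream_log 13 (7 * γ / 10) ((Cs + 3608) * 20736 * Real.exp Cs) (by positivity)
  obtain ⟨N8, h8⟩ := stream_log 4 1 18 one_pos
  refine ⟨7 + N1 + N2 + N3 + N4 + N5 + N6 + N7 + N8, fun N hN => ?_⟩
  have hN7 : 7 ≤ N := by omega
  have hNr : (7 : ℝ) ≤ N := by exact_mod_cast hN7
  have hN0 : (0 : ℝ) < N := by linarith
  have hL1 : 1 ≤ Real.log N := by
    rw [Real.le_log_iff_exp_le hN0]
    have := Real.exp_one_lt_d9
    linarith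
  have hL0 : 0 < Real.log N := by linarith
  have k1 := h1 N (by omega)
  have k2 := h2 N (by omega)
  have k3 := h3 N (by omega)
  have k4 := h4 N (by omega)
  have k5 := h5 N (by omega)
  have k6 := h6 N (by omega)
  have k7 := h7 N (by omega)
  have k8 := h8 N (by omega)
  rw [pow_zero, mul_one, Real.rpow_one] at k3 k4
  rw [pow_zero, mul_one] at k5
  rw [pow_one] at k6
  rw [Real.rpow_one] at k8
  have r11 : (N : ℝ) ^ (-11 : ℝ) = ((N : ℝ) ^ 11)⁻¹ := by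
    rw [Real.rpow_neg hN0.le, Real.rpow_ofNat]
  have r8 : (N : ℝ) ^ (-8 : ℝ) = ((N : ℝ) ^ 8)⁻¹ := by
    rw [Real.rpow_neg hN0.le, Real.rpow_ofNat]
  have hge1 : (1 : ℝ) ≤ N := by linarith
  refine ⟨hN7, ?_, ?_, ?_, ?_, ?_, ?_, ?_⟩
  · have : Real.log N ^ 2 = δ1 / 2 * (2 / δ1 * Real.log N ^ 2) := by
      field_simp
    rw [this]
    exact mul_le_mul_of_nonneg_left k1 (by positivity)
  · nlinarith
  · rw [r11]
    have a1 : (N : ℝ) * ((N : ℝ) ^ 11)⁻¹ ≤ (N : ℝ)⁻¹ := by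
      have : (N : ℝ) * ((N : ℝ) ^ 11)⁻¹ = ((N : ℝ) ^ 10)⁻¹ := by
        field_simp
      rw [this]
      refine inv_anti₀ hN0 ?_
      exact le_self_pow₀ hge1 (by norm_num)
    refine le_trans a1 ?_
    rw [div_le_iff₀ hη] at k3
    rw [inv_le_iff_one_le_mul₀ hN0]
    linarith
  · rw [div_le_iff₀ (by positivity)] at k4
    linarith
  · rw [div_le_iff₀ hδ] at k5
    linarith
  · rw [Real.rpow_def_of_pos hN0 (-10)]
    refine Real.exp_le_exp.mpr ?_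
    rw [div_mul_eq_mul_div, div_le_iff₀ (by positivity)] at k6
    linarith
  · intro w t hw1 hw ht
    have hwr : (1 : ℝ) ≤ w := by exact_mod_cast hw1
    have hw0 : (0 : ℝ) < w := by linarith
    constructor
    · rw [Real.rpow_def_of_pos hN0 (-8)]
      refine Real.exp_le_exp.mpr ?_
      have hex : 0 < Real.exp Cs := Real.exp_pos _
      set g : ℝ := (N : ℝ) ^ (γ / 10) with hg
      have hg0 : 0 < g := Real.rpow_pos_of_pos hN0 _
      have e1 : (N : ℝ) ^ (-(γ / 10)) = g⁻¹ := by rw [Real.rpow_neg hN0.le]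
      have e2 : (N : ℝ) ^ γ = g ^ 10 := by
        rw [hg, ← Real.rpow_natCast, ← Real.rpow_mul hN0.le]
        congr 1; push_cast; ring
      have e3 : (N : ℝ) ^ (7 * γ / 10) = g ^ 7 := by
        rw [hg, ← Real.rpow_natCast, ← Real.rpow_mul hN0.le]
        congr 1; push_cast; ring
      rw [e1]
      rw [e2] at ht
      rw [e3] at k7
      have w2 : (w : ℝ) ^ 2 ≤ Real.log N ^ 4 := by
        calc (w : ℝ) ^ 2 ≤ (Real.log N ^ 2) ^ 2 := pow_le_pow_left₀ hw0.le hw 2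
          _ = _ := by ring
      have w4 : (w : ℝ) ^ 4 ≤ Real.log N ^ 8 := by
        calc (w : ℝ) ^ 4 ≤ (Real.log N ^ 2) ^ 4 := pow_le_pow_left₀ hw0.le hw 4
          _ = _ := by ring
      have f1 : (6 * (w : ℝ)) ^ 2 * (100 * Real.log N) ≤ 3600 * Real.log N ^ 5 := by
        calc (6 * (w : ℝ)) ^ 2 * (100 * Real.log N) = 3600 * Real.log N * (w : ℝ) ^ 2 := by ring
          _ ≤ 3600 * Real.log N * Real.log N ^ 4 := mul_le_mul_of_nonneg_left w2 (by positivity)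
          _ = _ := by ring
      have p5 : 1 ≤ Real.log N ^ 5 := one_le_pow₀ hL1
      have p5' : Real.log N ≤ Real.log N ^ 5 := le_self_pow₀ hL1 (by norm_num)
      have f2 : (Cs + 3608) * Real.log N ^ 5 ≤
          t * g⁻¹ / (16 * (6 * (w : ℝ)) ^ 4 * g ^ 2 * Real.exp Cs) := by
        rw [le_div_iff₀ (by positivity)]
        calc (Cs + 3608) * Real.log N ^ 5 * (16 * (6 * (w : ℝ)) ^ 4 * g ^ 2 * Real.exp Cs)
            = ((Cs + 3608) * 20736 * Real.exp Cs * Real.log N ^ 5 * g ^ 2) * (w : ℝ) ^ 4 := by ring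
          _ ≤ ((Cs + 3608) * 20736 * Real.exp Cs * Real.log N ^ 5 * g ^ 2) * Real.log N ^ 8 :=
              mul_le_mul_of_nonneg_left w4 (by positivity)
          _ = ((Cs + 3608) * 20736 * Real.exp Cs * Real.log N ^ 13) * g ^ 2 := by ring
          _ ≤ g ^ 7 * g ^ 2 := mul_le_mul_of_nonneg_right k7 (by positivity)
          _ = g ^ 10 * g⁻¹ := by field_simp
          _ ≤ t * g⁻¹ := mul_le_mul_of_nonneg_right ht (by positivity)
      have f3 : Cs ≤ Cs * Real.log N ^ 5 := by nlinarith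
      nlinarith
    · rw [r11, r8]
      have w2 : (w : ℝ) ^ 2 ≤ Real.log N ^ 4 := by
        calc (w : ℝ) ^ 2 ≤ (Real.log N ^ 2) ^ 2 := pow_le_pow_left₀ hw0.le hw 2
          _ = _ := by ring
      calc 18 * (w : ℝ) ^ 2 * ((N : ℝ) ^ 11)⁻¹ ≤ N * ((N : ℝ) ^ 11)⁻¹ := by
            refine mul_le_mul_of_nonneg_right ?_ (by positivity)
            linarith
        _ = ((N : ℝ) ^ 10)⁻¹ := by field_simp
        _ ≤ ((N : ℝ) ^ 8)⁻¹ := by
            refine inv_anti₀ (by positivity) ?_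
            exact pow_le_pow_right₀ hge1 (by norm_num)

theorem stream_Mle {M N : ℕ} {ell as Sg : ℝ} (has : 0 < as) (h2 : 2 * as ≤ ell)
    (hM : ((M : ℝ) - 1) * (ell - as) ≤ Sg) (hS : Sg ≤ N * as) : M ≤ N + 1 := by
  by_contra hcon
  have h3 : (N : ℝ) + 2 ≤ M := by exact_mod_cast (by omega : N + 2 ≤ M)
  have hN : (0 : ℝ) ≤ N := Nat.cast_nonneg _
  have h4 : ((N : ℝ) + 1) * as ≤ ((M : ℝ) - 1) * (ell - as) :=
    mul_le_mul (by linarith) (by linarith) has.le (by linarith)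
  linarith

theorem stream_fin {N n MM : ℕ} (hN : 7 ≤ N) (hn : n ≤ N) (hM : MM ≤ N + 1) {e1 e2 : ℝ}
    (h1 : e1 ≤ 2 * ((N : ℝ) ^ 10)⁻¹) (h2 : e2 ≤ 2 * ((N : ℝ) ^ 8)⁻¹) (h10 : 0 ≤ e1) (h20 : 0 ≤ e2) :
    ((3 * n + MM + 2 : ℕ) : ℝ) * (2 * n * e1 + e2) ≤ (N : ℝ) ^ (-5 : ℝ) := by
  have hNr : (7 : ℝ) ≤ N := by exact_mod_cast hN
  have hN0 : (0 : ℝ) < N := by linarith
  have r5 : (N : ℝ) ^ (-5 : ℝ) = ((N : ℝ) ^ 5)⁻¹ := by
    rw [Real.rpow_neg hN0.le, Real.rpow_ofNat]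
  rw [r5]
  have hT : ((3 * n + MM + 2 : ℕ) : ℝ) ≤ 7 * N := by
    exact_mod_cast (by omega : 3 * n + MM + 2 ≤ 7 * N)
  have hnr : (n : ℝ) ≤ N := by exact_mod_cast hn
  have hq : 0 < (N : ℝ)⁻¹ := by positivity
  have hq7 : (N : ℝ)⁻¹ ≤ 1 / 7 := by
    rw [inv_le_comm₀ hN0 (by norm_num)]
    linarith
  have h3 : 2 * (n : ℝ) * e1 + e2 ≤ 2 * N * (2 * ((N : ℝ) ^ 10)⁻¹) + 2 * ((N : ℝ) ^ 8)⁻¹ := by
    refine add_le_add ?_ h2
    exact mul_le_mul (by linarith) h1 h10 (by positivity)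
  refine le_trans (mul_le_mul hT h3 (by positivity) (by positivity)) ?_
  have e : 7 * (N : ℝ) * (2 * N * (2 * ((N : ℝ) ^ 10)⁻¹) + 2 * ((N : ℝ) ^ 8)⁻¹) =
      ((N : ℝ) ^ 5)⁻¹ * (28 * ((N : ℝ)⁻¹) ^ 3 + 14 * ((N : ℝ)⁻¹) ^ 2) := by
    field_simp
    ring
  rw [e]
  have hb : 28 * ((N : ℝ)⁻¹) ^ 3 + 14 * ((N : ℝ)⁻¹) ^ 2 ≤ 1 := by
    have c3 : ((N : ℝ)⁻¹) ^ 3 ≤ (1 / 7) ^ 3 := pow_le_pow_left₀ hq.le hq7 3
    have c2 : ((N : ℝ)⁻¹) ^ 2 ≤ (1 / 7) ^ 2 := pow_le_pow_left₀ hq.le hq7 2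
    nlinarith
  have h5 : 0 ≤ ((N : ℝ) ^ 5)⁻¹ := by positivity
  nlinarith

theorem stream_time {N n MM τ : ℕ} {δ1 as ell Sg : ℝ} (hδ : 0 < δ1) (has : 0 < as)
    (hell : 1 ≤ ell) (hN : 1 ≤ 2 * N * δ1) (hS : 0 ≤ Sg)
    (hM : ((MM : ℝ) - 1) * (ell - as) ≤ Sg) (h1 : (1 + δ1) * as ≤ δ1 * ell)
    (hτ : (τ : ℝ) ≤ 2 * N * (1 + δ1) * ell + 1) :
    ((τ * (3 * n + MM + 2) : ℕ) : ℝ) ≤ 2 * N * ((1 + δ1) ^ 3 * (Sg + (3 * n + 4) * ell)) := by
  have hNn : (0 : ℝ) ≤ N := Nat.cast_nonneg _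
  have hn : (0 : ℝ) ≤ n := Nat.cast_nonneg _
  have hMM : (0 : ℝ) ≤ MM := Nat.cast_nonneg _
  have ha : (τ : ℝ) ≤ 2 * N * (1 + δ1) ^ 2 * ell := by
    have : 1 ≤ 2 * N * δ1 * ((1 + δ1) * ell) := by
      have h5 : 1 ≤ (1 + δ1) * ell := by nlinarith
      nlinarith
    calc (τ : ℝ) ≤ 2 * N * (1 + δ1) * ell + 1 := hτ
      _ ≤ 2 * N * (1 + δ1) * ell + 2 * N * δ1 * ((1 + δ1) * ell) := by linarith
      _ = 2 * N * (1 + δ1) ^ 2 * ell := by ring
  have hb : ((MM : ℝ) - 1) * ell ≤ (1 + δ1) * Sg := by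
    rcases Nat.eq_zero_or_pos MM with h0 | h0
    · subst h0
      have : 0 ≤ (1 + δ1) * Sg := by positivity
      push_cast
      linarith
    · have h3 : (1 : ℝ) ≤ MM := by exact_mod_cast h0
      have h4 : ell ≤ (1 + δ1) * (ell - as) := by linarith
      calc ((MM : ℝ) - 1) * ell ≤ ((MM : ℝ) - 1) * ((1 + δ1) * (ell - as)) :=
            mul_le_mul_of_nonneg_left h4 (by linarith)
        _ = (1 + δ1) * (((MM : ℝ) - 1) * (ell - as)) := by ring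
        _ ≤ (1 + δ1) * Sg := mul_le_mul_of_nonneg_left hM (by linarith)
  push_cast
  calc (τ : ℝ) * (3 * n + MM + 2) ≤ 2 * N * (1 + δ1) ^ 2 * ell * (3 * n + MM + 2) :=
        mul_le_mul_of_nonneg_right ha (by linarith)
    _ = 2 * N * (1 + δ1) ^ 2 * ((3 * n + 3) * ell + ((MM : ℝ) - 1) * ell) := by ring
    _ ≤ 2 * N * (1 + δ1) ^ 2 * ((3 * n + 3) * ell + (1 + δ1) * Sg) := by
        refine mul_le_mul_of_nonneg_left ?_ (by positivity)
        linarith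
    _ ≤ 2 * N * (1 + δ1) ^ 2 * ((1 + δ1) * ((3 * n + 4) * ell) + (1 + δ1) * Sg) := by
        refine mul_le_mul_of_nonneg_left ?_ (by positivity)
        have h6 : (3 * (n : ℝ) + 3) * ell ≤ (3 * n + 4) * ell :=
          mul_le_mul_of_nonneg_right (by linarith) (by linarith)
        have h7 : 0 ≤ (3 * (n : ℝ) + 4) * ell := by positivity
        nlinarith
    _ = 2 * N * ((1 + δ1) ^ 3 * (Sg + (3 * n + 4) * ell)) := by ring

/-- STREAM: the streaming lemma with numbers -/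
theorem st_STREAM (hSL : ST_SL) (hMOVE : ST_MOVE) (hQ : ST_Q) (hCELL : ST_CELL)
    (_hMIR : ST_MIR) : ST_STREAM := by
  intro γ δ1 η0 Cs hγ hγ1 hδ hδ1 hη hη1 hC
  obtain ⟨N0, hnum⟩ := stream_num γ δ1 η0 Cs hγ hδ hη hC
  refine ⟨N0, ?_⟩
  intro N r l A x0 B w n as ell hN E hn hAn hBn has hell
  obtain ⟨hN7, m1, m2, m3, m4, m5, m6, m7⟩ := hnum N hN
  have hNr : (7 : ℝ) ≤ N := by exact_mod_cast hN7
  have hNpos : (0 : ℝ) < N := by linarith
  have hadm := E.adm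
  have hpos : Pos N l := fun x h1 h2 =>
    lt_of_lt_of_le (Real.rpow_pos_of_pos hNpos _) (E.low x h1 h2)
  have hg : 0 < (N : ℝ) ^ γ := Real.rpow_pos_of_pos hNpos _
  have hw1 := E.w1
  have hwl := E.wlog
  have hA := E.hA
  have hB := E.hB
  have hBN := E.hBN
  have hadm' := stream_adm_mirr hadm
  have hpos' := stream_pos_mirr hpos
  have has0 : 0 < as := by linarith
  have hg3 : 3 ≤ (N : ℝ) ^ γ := by nlinarith [sq_nonneg (Real.log N)]
  have hell0 : (N : ℝ) ^ γ ≤ ell := by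
    refine le_trans ?_ hell
    nlinarith
  have hell1 : 1 ≤ ell := by linarith
  have hwas : (w : ℝ) * as ≤ δ1 / 2 * ell := by
    calc (w : ℝ) * as ≤ (δ1 / 2 * (N : ℝ) ^ γ) * as :=
          mul_le_mul_of_nonneg_right (le_trans hwl m1) has0.le
      _ = δ1 / 2 * ((N : ℝ) ^ γ * as) := by ring
      _ ≤ δ1 / 2 * ell := mul_le_mul_of_nonneg_left hell (by positivity)
  have hw3 : ((w : ℝ) + 3) * as ≤ ell := by
    refine le_trans (mul_le_mul_of_nonneg_right ?_ has0.le) hell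
    linarith
  have h2as : 2 * as ≤ ell := by
    have : (0 : ℝ) ≤ w := Nat.cast_nonneg _
    nlinarith
  have hx0N : x0 ≤ N := by omega
  have hnn : ∀ y, A ≤ y → y < x0 → 0 ≤ atl r l η0 w y := fun y h1 h2 =>
    stream_atl_nonneg hadm hη.le (by omega)
  have hnn' : ∀ y, N - B ≤ y → y < N - x0 → 0 ≤ atl (mirr N r) (mirr N l) η0 w y := fun y h1 h2 =>
    stream_atl_nonneg hadm' hη.le (by omega)
  obtain ⟨M, u, hV, hsum, hM⟩ := hCELL (atl r l η0 w) A x0 w n ell as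
    (fun y h1 h2 => ⟨hnn y h1 h2, E.at_l y h1 h2⟩) has0 hw3 hw1 hA hAn
  obtain ⟨M', u', hV', hsum', hM'⟩ := hCELL (atl (mirr N r) (mirr N l) η0 w) (N - B) (N - x0) w n
    ell as (fun y h1 h2 => ⟨hnn' y h1 h2, E.at_r y h1 h2⟩) has0 hw3 hw1 (by omega) (by omega)
  obtain ⟨τ, hτdef⟩ : ∃ τ : ℕ, τ = ⌈2 * (N : ℝ) * (1 + δ1) * ell⌉₊ := ⟨_, rfl⟩
  have hτ1 : 2 * (N : ℝ) * (1 + δ1) * ell ≤ τ := by rw [hτdef]; exact Nat.le_ceil _
  have hτ2 : (τ : ℝ) ≤ 2 * (N : ℝ) * (1 + δ1) * ell + 1 := by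
    rw [hτdef]; exact (Nat.ceil_lt_add_one (by positivity)).le
  have hτ : (1 + δ1) * ell ≤ τ / (2 * N) := by
    rw [le_div_iff₀ (by positivity)]
    linarith
  have r11 : (N : ℝ) ^ (-11 : ℝ) = ((N : ℝ) ^ 11)⁻¹ := by
    rw [Real.rpow_neg hNpos.le, Real.rpow_ofNat]
  have r10 : (N : ℝ) ^ (-10 : ℝ) = ((N : ℝ) ^ 10)⁻¹ := by
    rw [Real.rpow_neg hNpos.le, Real.rpow_ofNat]
  have r8 : (N : ℝ) ^ (-8 : ℝ) = ((N : ℝ) ^ 8)⁻¹ := by
    rw [Real.rpow_neg hNpos.le, Real.rpow_ofNat]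
  have hfar' : ∀ z x, z + w ≤ x → x < N → RR (mirr N r) (mirr N l) z x ≤ (N : ℝ) ^ (-11 : ℝ) := by
    intro z x h1 h2
    rw [stream_RR_mirr h2]
    exact E.far _ _ (by omega) (by omega)
  have heps : (0 : ℝ) ≤ (N : ℝ) ^ (-11 : ℝ) := Real.rpow_nonneg hNpos.le _
  have he1 : Real.exp (-(η0 * δ1 / 8 * (ell / as))) + N * (N : ℝ) ^ (-11 : ℝ) ≤
      2 * ((N : ℝ) ^ 10)⁻¹ := by
    have a1 : Real.exp (-(η0 * δ1 / 8 * (ell / as))) ≤ ((N : ℝ) ^ 10)⁻¹ := by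
      rw [← r10]
      refine le_trans (Real.exp_le_exp.mpr ?_) m6
      refine neg_le_neg (mul_le_mul_of_nonneg_left ?_ (by positivity))
      rw [le_div_iff₀ has0]
      exact hell
    have a2 : (N : ℝ) * (N : ℝ) ^ (-11 : ℝ) = ((N : ℝ) ^ 10)⁻¹ := by
      rw [r11]; field_simp
    linarith
  have ht : (N : ℝ) ^ γ ≤ τ / (2 * N) := by
    refine le_trans ?_ hτ
    nlinarith
  obtain ⟨m8, m9⟩ := m7 w (τ / (2 * N)) hw1 hwl ht
  have hlogm : Real.log (1 / (N : ℝ) ^ (-100 : ℝ)) ≤ 100 * Real.log N := by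
    rw [one_div, Real.log_inv, Real.log_rpow hNpos]
    linarith
  have he2 : Real.exp (Cs + (6 * (w : ℝ)) ^ 2 * (100 * Real.log N) -
      τ * (N : ℝ) ^ (-(γ / 10)) /
        (2 * N * (16 * (6 * (w : ℝ)) ^ 4 * ((N : ℝ) ^ (γ / 10)) ^ 2 * Real.exp Cs))) +
      18 * (w : ℝ) ^ 2 * (N : ℝ) ^ (-11 : ℝ) ≤ 2 * ((N : ℝ) ^ 8)⁻¹ := by
    have a3 : τ * (N : ℝ) ^ (-(γ / 10)) /
        (2 * N * (16 * (6 * (w : ℝ)) ^ 4 * ((N : ℝ) ^ (γ / 10)) ^ 2 * Real.exp Cs)) =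
        τ / (2 * N) * (N : ℝ) ^ (-(γ / 10)) /
        (16 * (6 * (w : ℝ)) ^ 4 * ((N : ℝ) ^ (γ / 10)) ^ 2 * Real.exp Cs) := by
      rw [div_mul_eq_mul_div, div_div]
    rw [a3]
    rw [r8] at m8 m9
    linarith
  have hNN : (1 : ℝ) ≤ N := by linarith
  have hD : 1 ≤ (N : ℝ) ^ (γ / 10) := Real.one_le_rpow hNN (by positivity)
  have hl1 : (N : ℝ) ^ (-100 : ℝ) ≤ 1 := Real.rpow_le_one_of_one_le_of_nonpos hNN (by norm_num)
  have key := hSL N r l A B x0 w n τ (2 * ((N : ℝ) ^ 10)⁻¹) (2 * ((N : ℝ) ^ 8)⁻¹)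
    (LD.mk A x0 w n M (max M M' - M) u) (LD.mk (N - B) (N - x0) w n M' (max M M' - M') u')
    hadm hpos (by omega) (by omega) hBN hn (by positivity) (by positivity)
    (hV _) (hV' _) rfl rfl rfl rfl rfl rfl rfl rfl
    (by show M + (max M M' - M) = M' + (max M M' - M'); omega)
    (stream_mv hMOVE N r l η0 as ell δ1 _ _ w τ _ hadm hpos hη hη1 hw1 has0 heps (hV _) rfl hx0N
      E.at_l E.far E.tiny m3 hsum hτ hwas he1)
    (stream_mv hMOVE N (mirr N r) (mirr N l) η0 as ell δ1 _ _ w τ _ hadm' hpos' hη hη1 hw1 has0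
      heps (hV' _) rfl (Nat.sub_le _ _) E.at_r hfar' E.tiny m3 hsum' hτ hwas he1)
    (stream_ab hQ N r l x0 w τ A B ((N : ℝ) ^ (γ / 10)) ((N : ℝ) ^ (-(γ / 10)))
      ((N : ℝ) ^ (-100 : ℝ)) Cs _ _ (100 * Real.log N) hadm hpos hBN
      (Real.rpow_pos_of_pos hNpos _) (Real.rpow_pos_of_pos hNpos _) hl1 hD E.rlow E.low E.near
      hA hB E.zs E.far heps hlogm he2)
  obtain ⟨σ, hσ, hfin⟩ := key
  have hMs : M + (max M M' - M) = max M M' := by omega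
  simp only [hMs] at hfin
  have hSl : ∑ y ∈ Finset.Ico A x0, atl r l η0 w y ≤ N * as := by
    calc ∑ y ∈ Finset.Ico A x0, atl r l η0 w y ≤ ∑ y ∈ Finset.Ico A x0, as := by
          refine Finset.sum_le_sum fun y hy => ?_
          rw [Finset.mem_Ico] at hy
          exact E.at_l y hy.1 hy.2
      _ = ((x0 - A : ℕ) : ℝ) * as := by rw [Finset.sum_const, Nat.card_Ico, nsmul_eq_mul]
      _ ≤ N * as := mul_le_mul_of_nonneg_right (by exact_mod_cast (by omega : x0 - A ≤ N)) has0.le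
  have hSr : ∑ y ∈ Finset.Ico (N - B) (N - x0), atl (mirr N r) (mirr N l) η0 w y ≤ N * as := by
    calc ∑ y ∈ Finset.Ico (N - B) (N - x0), atl (mirr N r) (mirr N l) η0 w y
        ≤ ∑ y ∈ Finset.Ico (N - B) (N - x0), as := by
          refine Finset.sum_le_sum fun y hy => ?_
          rw [Finset.mem_Ico] at hy
          exact E.at_r y hy.1 hy.2
      _ = ((N - x0 - (N - B) : ℕ) : ℝ) * as := by
          rw [Finset.sum_const, Nat.card_Ico, nsmul_eq_mul]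
      _ ≤ N * as := mul_le_mul_of_nonneg_right
          (by exact_mod_cast (by omega : N - x0 - (N - B) ≤ N)) has0.le
  have hSl0 : 0 ≤ ∑ y ∈ Finset.Ico A x0, atl r l η0 w y := by
    refine Finset.sum_nonneg fun y hy => ?_
    rw [Finset.mem_Ico] at hy
    exact hnn y hy.1 hy.2
  have hMb : M ≤ N + 1 := stream_Mle has0 h2as hM hSl
  have hMb' : M' ≤ N + 1 := stream_Mle has0 h2as hM' hSr
  refine ⟨σ, τ * (3 * n + max M M' + 2), hσ, ?_, ?_⟩
  · refine stream_time hδ has0 hell1 m4 (le_trans hSl0 (le_max_left _ _)) ?_ ?_ hτ2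
    · rcases le_total M M' with h | h
      · rw [max_eq_right h]
        exact le_trans hM' (le_max_right _ _)
      · rw [max_eq_left h]
        exact le_trans hM (le_max_left _ _)
    · calc (1 + δ1) * as ≤ (δ1 * (N : ℝ) ^ γ) * as := mul_le_mul_of_nonneg_right m5 has0.le
        _ = δ1 * ((N : ℝ) ^ γ * as) := by ring
        _ ≤ δ1 * ell := mul_le_mul_of_nonneg_left hell hδ.le
  · intro η hη'
    refine le_trans (hfin η hη') ?_
    exact stream_fin hN7 (by omega) (by omega) le_rfl le_rfl (by positivity) (by positivity)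

end Pool.Agent.Helper98.EX
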